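import Mathlib

namespace Pool.Agent.Results.MP_9085a3_al.Classify

lemma exists_ker (G : Type) [CommGroup G] [Finite G] (H : Subgroup G) :
    ∃ β : G →* G, ∀ g, β g = 1 ↔ g ∈ H := by
  have : NeZero ((Monoid.exponent G : ℕ) : ℂ) :=
    ⟨Nat.cast_ne_zero.mpr Monoid.exponent_ne_zero_of_finite⟩
  have : NeZero ((Monoid.exponent (G ⧸ H) : ℕ) : ℂ) :=
    ⟨Nat.cast_ne_zero.mpr Monoid.exponent_ne_zero_of_finite⟩
  obtain ⟨e1⟩ := CommGroup.monoidHom_mulEquiv_of_hasEnoughRootsOfUnity G ℂ
  obtain ⟨e2⟩ := CommGroup.monoidHom_mulEquiv_of_hasEnoughRootsOfUnity (G ⧸ H) ℂ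
  let c : (G ⧸ H →* ℂˣ) →* (G →* ℂˣ) :=
    MonoidHom.mk' (fun φ => φ.comp (QuotientGroup.mk' H)) (fun _ _ => rfl)
  have hc : Function.Injective c := by
    intro φ ψ h
    exact QuotientGroup.monoidHom_ext H h
  refine ⟨e1.toMonoidHom.comp (c.comp (e2.symm.toMonoidHom.comp (QuotientGroup.mk' H))),
    fun g => ?_⟩
  simp only [MonoidHom.comp_apply, MulEquiv.coe_toMonoidHom, MulEquiv.map_eq_one_iff,
    map_eq_one_iff c hc, QuotientGroup.mk'_apply]
  exact (map_eq_one_iff _ e2.symm.injective).trans (QuotientGroup.eq_one_iff g)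

lemma mat {F : Type} [Field F] {k : ℕ} (a β : Matrix (ZMod (k + 1)) (ZMod (k + 1)) F)
    (ha : IsUnit a) (hb : IsUnit (1 - a)) : ∃ u, IsUnit u ∧ IsUnit (u + β) := by
  by_cases hβ : IsUnit β
  · refine ⟨-(β * a), (hβ.mul ha).neg, ?_⟩
    have : -(β * a) + β = β * (1 - a) := by noncomm_ring
    rw [this]
    exact hβ.mul hb
  obtain ⟨L, L', D, hD⟩ := Matrix.Pivot.exists_list_transvec_mul_mul_list_transvec_eq_diagonal β
  set P := (L.map Matrix.TransvectionStruct.toMatrix).prod with hP
  set Q := (L'.map Matrix.TransvectionStruct.toMatrix).prod with hQ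
  have hPd : P.det = 1 := Matrix.TransvectionStruct.det_toMatrix_prod L
  have hQd : Q.det = 1 := Matrix.TransvectionStruct.det_toMatrix_prod L'
  have hPu : IsUnit P := (Matrix.isUnit_iff_isUnit_det P).mpr (by rw [hPd]; exact isUnit_one)
  have hQu : IsUnit Q := (Matrix.isUnit_iff_isUnit_det Q).mpr (by rw [hQd]; exact isUnit_one)
  have h0 : ∃ i0, D i0 = 0 := by
    have h1 := congrArg Matrix.det hD
    rw [Matrix.det_mul, Matrix.det_mul, hPd, hQd, one_mul, mul_one, Matrix.det_diagonal] at h1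
    have h2 : β.det = 0 := by
      by_contra h
      exact hβ ((Matrix.isUnit_iff_isUnit_det β).mpr (Ne.isUnit h))
    rw [h2] at h1
    obtain ⟨i, -, hi⟩ := Finset.prod_eq_zero_iff.mp h1.symm
    exact ⟨i, hi⟩
  obtain ⟨i0, hi0⟩ := h0
  let C : Matrix (ZMod (k + 1)) (ZMod (k + 1)) F := Matrix.of fun i j => if j = i + 1 then 1 else 0
  have key : ∀ E : ZMod (k + 1) → F, E i0 = 0 → IsUnit (C + Matrix.diagonal E) := by
    intro E hE
    rw [← Matrix.mulVec_injective_iff_isUnit]
    change Function.Injective (Matrix.mulVecLin (C + Matrix.diagonal E))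
    rw [injective_iff_map_eq_zero]
    intro x hx
    have h1 : ∀ i, x (i + 1) + E i * x i = 0 := by
      intro i
      have := congrFun hx i
      simpa [Matrix.add_mulVec, Matrix.mulVec_diagonal, C, Matrix.mulVec, dotProduct,
        Matrix.diagonal, add_mul, Finset.sum_add_distrib] using this
    have h2 : ∀ t : ℕ, x (i0 + 1 + t) = 0 := by
      intro t
      induction t with
      | zero => simpa [hE] using h1 i0
      | succ t ih =>
        have := h1 (i0 + 1 + t)
        rw [ih, mul_zero, add_zero] at this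
        push_cast
        rwa [← add_assoc]
    funext j
    have := h2 (j - i0 - 1).val
    rw [ZMod.natCast_zmod_val] at this
    have e : i0 + 1 + (j - i0 - 1) = j := by ring
    rwa [e] at this
  have hC : IsUnit C := by simpa using key 0 rfl
  obtain ⟨p, hp⟩ := hPu
  obtain ⟨q, hq⟩ := hQu
  refine ⟨(p⁻¹).val * C * (q⁻¹).val, (p⁻¹.isUnit.mul hC).mul q⁻¹.isUnit, ?_⟩
  have e : (p⁻¹).val * C * (q⁻¹).val + β = (p⁻¹).val * (C + Matrix.diagonal D) * (q⁻¹).val := by
    rw [← hD, ← hp, ← hq, mul_add, add_mul]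
    simp [mul_assoc]
  rw [e]
  exact (p⁻¹.isUnit.mul (key D hi0)).mul q⁻¹.isUnit

lemma two_units {R : Type} [Ring R] [Finite R] (a β : R) (ha : IsUnit a) (hb : IsUnit (1 - a)) :
    ∃ u, IsUnit u ∧ IsUnit (u + β) := by
  obtain ⟨n, D, d, _, hd, ⟨e⟩⟩ :=
    IsSemisimpleRing.exists_ringEquiv_pi_matrix_divisionRing (R ⧸ Ring.jacobson R)
  let π : R →+* Π i, Matrix (Fin (d i)) (Fin (d i)) (D i) :=
    e.toRingHom.comp (Ideal.Quotient.mk (Ring.jacobson R))
  have hπ : Function.Surjective π := e.surjective.comp Ideal.Quotient.mk_surjective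
  have hfin : Finite (Π i, Matrix (Fin (d i)) (Fin (d i)) (D i)) := Finite.of_surjective π hπ
  have hlift : ∀ x : R, IsUnit (π x) → IsUnit x := by
    intro x hx
    obtain ⟨y, hy⟩ := hx.exists_right_inv
    obtain ⟨y, rfl⟩ := hπ y
    have h1 : π (x * y - 1) = 0 := by rw [map_sub, map_mul, hy, map_one, sub_self]
    have h2 : x * y - 1 ∈ Ring.jacobson R := by
      rw [← Ideal.Quotient.eq_zero_iff_mem]
      apply e.injective
      rw [map_zero]
      exact h1
    obtain ⟨N, hN⟩ := IsSemiprimaryRing.isNilpotent (R := R)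
    have h3 : IsNilpotent (x * y - 1) := by
      refine ⟨N, ?_⟩
      have := Ideal.pow_mem_pow h2 N
      rw [hN] at this
      simpa using this
    have h4 : IsUnit (x * y) := by simpa using h3.isUnit_add_one
    obtain ⟨z, hz⟩ := h4.exists_right_inv
    rw [mul_assoc] at hz
    exact ⟨⟨x, y * z, hz, mul_eq_one_symm hz⟩, rfl⟩
  have hcomp : ∀ i, ∃ u : Matrix (Fin (d i)) (Fin (d i)) (D i), IsUnit u ∧ IsUnit (u + π β i) := by
    intro i
    have h1 : IsUnit (π a i) := (ha.map π).map (Pi.evalRingHom _ i)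
    have h2 : IsUnit (1 - π a i) := by
      have := (hb.map π).map (Pi.evalRingHom _ i)
      simpa using this
    have hf : Finite (Matrix (Fin (d i)) (Fin (d i)) (D i)) :=
      Finite.of_surjective (fun x : Π i, Matrix (Fin (d i)) (Fin (d i)) (D i) => x i)
        (Function.surjective_eval i)
    have hi := hd i
    have hfD : Finite (D i) :=
      Finite.of_surjective (fun x : Matrix (Fin (d i)) (Fin (d i)) (D i) => x 0 0)
        (fun c => ⟨fun _ _ => c, rfl⟩)
    generalize π a i = a' at h1 h2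
    generalize π β i = β'
    clear hf hlift hfin hπ
    clear_value π
    clear π e
    obtain ⟨k, hk⟩ : ∃ k, d i = k + 1 := ⟨d i - 1, by have := hi.out; omega⟩
    revert a' β'
    rw [hk]
    intro a' h1 h2 β'
    exact mat (F := D i) (k := k) a' β' h1 h2
  choose u hu hu' using hcomp
  obtain ⟨v, hv⟩ := hπ u
  refine ⟨v, hlift v ?_, hlift _ ?_⟩
  · rw [hv]
    exact Pi.isUnit_iff.mpr hu
  · rw [map_add, hv]
    exact Pi.isUnit_iff.mpr hu'

lemma red (G : Type) [CommGroup G] [Finite G] :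
    (∀ H : Subgroup G, ∃ α : MulAut G, ∀ g : G, α g = g ↔ g ∈ H) ↔
      ∃ α : MulAut G, ∀ g : G, α g = g → g = 1 := by
  constructor
  · intro h
    obtain ⟨α, hα⟩ := h ⊥
    exact ⟨α, fun g hg => Subgroup.mem_bot.mp ((hα g).mp hg)⟩
  · rintro ⟨α, hα⟩ H
    obtain ⟨β, hβ⟩ := exists_ker G H
    have : Finite (Module.End ℤ (Additive G)) := DFunLike.finite _
    let a : Module.End ℤ (Additive G) := (MonoidHom.toAdditive α.toMonoidHom).toIntLinearMap
    let b : Module.End ℤ (Additive G) := (MonoidHom.toAdditive β).toIntLinearMap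
    have ha : IsUnit a := (Module.End.isUnit_iff a).mpr α.bijective
    have hb : IsUnit (1 - a) := by
      rw [Module.End.isUnit_iff, ← Finite.injective_iff_bijective, injective_iff_map_eq_zero]
      intro x hx
      have h1 : x - a x = 0 := hx
      exact hα (Additive.toMul x) (sub_eq_zero.mp h1).symm
    obtain ⟨u, ⟨u, rfl⟩, hu⟩ := two_units a b ha hb
    have h2 : IsUnit ((↑u⁻¹ : Module.End ℤ (Additive G)) * (↑u + b)) := u⁻¹.isUnit.mul hu
    rw [mul_add, Units.inv_mul] at h2
    let c : Module.End ℤ (Additive G) := 1 + ↑u⁻¹ * b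
    have hc : Function.Bijective c := (Module.End.isUnit_iff c).mp h2
    refine ⟨MulEquiv.ofBijective (MonoidHom.toAdditive.symm c.toAddMonoidHom : G →* G) hc, fun g => ?_⟩
    change c (Additive.ofMul g) = Additive.ofMul g ↔ _
    rw [← hβ]
    change Additive.ofMul g + (↑u⁻¹ : Module.End ℤ (Additive G)) (b (Additive.ofMul g)) =
      Additive.ofMul g ↔ b (Additive.ofMul g) = 0
    rw [add_eq_left]
    exact map_eq_zero_iff _ ((Module.End.isUnit_iff _).mp u⁻¹.isUnit).1

lemma even_of {a b : ℕ} (h : b < a) (z : ZMod (2 ^ a)) (hz : (2 ^ b : ℕ) • z = 0) :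
    ∃ w, z = 2 • w := by
  have h1 : (((2 ^ b * z.val : ℕ)) : ZMod (2 ^ a)) = 0 := by
    rw [Nat.cast_mul, ZMod.natCast_zmod_val, ← nsmul_eq_mul, hz]
  rw [ZMod.natCast_eq_zero_iff] at h1
  have h2 : 2 ^ b * 2 ∣ 2 ^ b * z.val := by
    rw [← pow_succ]
    exact (pow_dvd_pow 2 h).trans h1
  obtain ⟨w, hw⟩ := Nat.dvd_of_mul_dvd_mul_left (by positivity) h2
  refine ⟨w, ?_⟩
  rw [← ZMod.natCast_zmod_val z, hw, nsmul_eq_mul]
  push_cast
  rfl

lemma kill (n : ℕ) (z : ZMod n) : n • z = 0 := by
  rw [nsmul_eq_mul, ZMod.natCast_self, zero_mul]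

lemma odd_diag {ι : Type} [Fintype ι] [DecidableEq ι] (p e : ι → ℕ) (hp : ∀ i, (p i).Prime)
    (i : ι) (h2 : p i = 2) (he : e i ≠ 0) (hu : ∀ j, j ≠ i → p j = 2 → e j ≠ e i)
    (a : (Π j, ZMod (p j ^ e j)) →+ (Π j, ZMod (p j ^ e j))) (ha : Function.Bijective a) :
    ¬ ∃ w, a (Pi.single i 1) i = 2 • w := by
  rintro ⟨w, hw⟩
  let γ := (AddEquiv.ofBijective a ha).symm
  have hev : ∀ {l : ℕ} (j : ι), p j = 2 → l < e j → ∀ z : ZMod (p j ^ e j),
      (2 ^ l : ℕ) • z = 0 → ∃ w, z = 2 • w := by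
    intro l j hj hl
    rw [hj]
    exact fun z hz => even_of hl z hz
  have h1 : ∀ j, ∃ v, γ (Pi.single j (a (Pi.single i 1) j)) i = 2 • v := by
    intro j
    have hhalf : ∀ y : ZMod (p j ^ e j), a (Pi.single i 1) j = 2 • y →
        ∃ v, γ (Pi.single j (a (Pi.single i 1) j)) i = 2 • v := by
      intro y hy
      exact ⟨γ (Pi.single j y) i, by rw [hy, Pi.single_smul, map_nsmul]; rfl⟩
    by_cases hji : j = i
    · subst hji
      exact hhalf w hw
    have hk : (2 ^ e i : ℕ) • a (Pi.single i 1) j = 0 := by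
      have h3 : (2 ^ e i : ℕ) • (1 : ZMod (p i ^ e i)) = 0 := by
        rw [← h2]
        exact kill _ _
      rw [← Pi.smul_apply, ← map_nsmul, ← Pi.single_smul, h3, Pi.single_zero, map_zero]
      rfl
    by_cases hj : p j = 2
    · rcases lt_or_gt_of_ne (hu j hji hj) with h | h
      · refine hev i h2 h _ ?_
        have h3 : (2 ^ e j : ℕ) • a (Pi.single i 1) j = 0 := by
          rw [← hj]
          exact kill _ _
        rw [← Pi.smul_apply, ← map_nsmul, ← Pi.single_smul, h3, Pi.single_zero, map_zero]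
        rfl
      · obtain ⟨y, hy⟩ := hev j hj h _ hk
        exact hhalf y hy
    · obtain ⟨c, hc⟩ := ((hp j).odd_of_ne_two hj).pow (n := e j)
      apply hhalf (-(c • a (Pi.single i 1) j))
      have h3 := kill _ (a (Pi.single i 1) j)
      generalize a (Pi.single i 1) j = y at h3 ⊢
      have h4 : (2 * c + 1) • y = 0 := by rw [← hc]; exact h3
      rw [add_smul, one_smul, mul_smul] at h4
      rw [smul_neg]
      exact eq_neg_of_add_eq_zero_right h4
  choose v hv using h1
  have h3 : (1 : ZMod (p i ^ e i)) = 2 • ∑ j, v j := by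
    have h4 : γ (a (Pi.single i 1)) = Pi.single i 1 :=
      (AddEquiv.ofBijective a ha).symm_apply_apply _
    rw [← Finset.univ_sum_single (a (Pi.single i 1)), map_sum] at h4
    have h5 := congrFun h4 i
    rw [Finset.sum_apply, Pi.single_eq_same] at h5
    rw [← h5, Finset.smul_sum]
    exact Finset.sum_congr rfl (fun j _ => hv j)
  have hd : 2 ∣ p i ^ e i := by rw [h2]; exact dvd_pow_self 2 he
  have h6 := congrArg (ZMod.castHom hd (ZMod 2)) h3
  rw [map_one, map_nsmul, kill] at h6
  exact one_ne_zero h6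

lemma fpf_iff {ι : Type} [Fintype ι] (p e : ι → ℕ) (hp : ∀ i, (p i).Prime) :
    (∃ a : (Π j, ZMod (p j ^ e j)) ≃+ (Π j, ZMod (p j ^ e j)), ∀ x, a x = x → x = 0) ↔
      ∀ i, p i = 2 → e i ≠ 0 → ∃ j, j ≠ i ∧ p j = 2 ∧ e j = e i := by
  classical
  have : ∀ j, NeZero (p j ^ e j) := fun j => ⟨pow_ne_zero _ (hp j).ne_zero⟩
  constructor
  · rintro ⟨a, ha⟩ i h2 he
    by_contra hcon
    push Not at hcon
    have h1 := odd_diag p e hp i h2 he hcon a.toAddMonoidHom a.bijective
    have h3 := odd_diag p e hp i h2 he hcon (AddMonoidHom.id _ - a.toAddMonoidHom) (by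
      rw [← Finite.injective_iff_bijective, injective_iff_map_eq_zero]
      intro x hx
      exact ha x (sub_eq_zero.mp hx).symm)
    have hpar : ∀ z : ZMod (p i ^ e i), (∃ w, z = 2 • w) ∨ ∃ w, 1 - z = 2 • w := by
      intro z
      obtain ⟨c, hc | hc⟩ := Nat.even_or_odd' z.val
      · left
        refine ⟨c, ?_⟩
        rw [← ZMod.natCast_zmod_val z, hc, nsmul_eq_mul]
        push_cast
        rfl
      · right
        refine ⟨-c, ?_⟩
        rw [← ZMod.natCast_zmod_val z, hc, nsmul_eq_mul]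
        push_cast
        ring
    rcases hpar (a (Pi.single i 1) i) with h | h
    · exact h1 h
    · apply h3
      simpa using h
  · intro h
    let s : ι → Finset ι := fun i => Finset.univ.filter (fun j => p j ^ e j = p i ^ e i)
    have hcyc := fun t : Finset ι => Finset.exists_cycleOn t
    choose f hf hf' using hcyc
    have hroot : ∀ t : Finset ι, ∃ r : ι → Prop, ∀ i ∈ t, (∃ j ∈ t, r j) ∧
        ∀ j k, r j → r k → j = k := by
      intro t
      rcases t.eq_empty_or_nonempty with rfl | ⟨x, hx⟩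
      · exact ⟨fun _ => False, by simp⟩
      · exact ⟨fun j => j = x, fun i _ => ⟨⟨x, hx, rfl⟩, fun j k hj hk => hj.trans hk.symm⟩⟩
    choose rt hrt using hroot
    have hs : ∀ i, i ∈ s i := fun i => by simp [s]
    have hss : ∀ i j, j ∈ s i → s j = s i := fun i j hj => by
      simp only [s, (Finset.mem_filter.mp hj).2]
    have hσ : ∀ i, f (s i) i ∈ s i := fun i => (hf (s i)).1.mapsTo (hs i)
    have hq : ∀ i, p i ^ e i ∣ p (f (s i) i) ^ e (f (s i) i) := fun i =>
      (Finset.mem_filter.mp (hσ i)).2.symm.dvd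
    let C : ∀ i, ZMod (p (f (s i) i) ^ e (f (s i) i)) →+* ZMod (p i ^ e i) :=
      fun i => ZMod.castHom (hq i) _
    have hC : ∀ i, Function.Injective (C i) := by
      intro i
      rw [injective_iff_map_eq_zero]
      intro z hz
      rw [← ZMod.natCast_zmod_val z] at hz ⊢
      rw [map_natCast, ZMod.natCast_eq_zero_iff] at hz
      rw [ZMod.natCast_eq_zero_iff]
      exact (Finset.mem_filter.mp (hσ i)).2.dvd.trans hz
    have key : ∀ (x : Π j, ZMod (p j ^ e j)) (E : ι → ℤ) (i i0 : ι), i0 ∈ s i → E i0 = 0 →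
        (∀ j ∈ s i, C j (x (f (s j) j)) + E j • x j = 0) → x i = 0 := by
      intro x E i i0 h0 hE hx
      have h1 : ∀ k : ℕ, (f (s i) ^ (k + 1)) i0 ∈ s i ∧ x ((f (s i) ^ (k + 1)) i0) = 0 := by
        intro k
        induction k with
        | zero =>
          have h2 := hx i0 h0
          rw [hE, zero_smul, add_zero, map_eq_zero_iff _ (hC i0), hss i i0 h0] at h2
          exact ⟨(hf (s i)).1.mapsTo h0, h2⟩
        | succ k ih =>
          have h2 := hx _ ih.1
          rw [ih.2, smul_zero, add_zero, map_eq_zero_iff _ (hC _), hss i _ ih.1] at h2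
          rw [pow_succ']
          exact ⟨(hf (s i)).1.mapsTo ih.1, h2⟩
      obtain ⟨k, -, hk⟩ := (hf (s i)).exists_pow_eq ((hf (s i)).1.mapsTo h0) (hs i)
      have h3 := (h1 k).2
      rw [pow_succ, Equiv.Perm.mul_apply, hk] at h3
      exact h3
    let good : ι → Prop := fun i => p i = 2 ∧ e i ≠ 0
    have hgood : ∀ i j, good i → j ∈ s i → good j := by
      intro i j hi hj
      have h1 : p j ^ e j = p i ^ e i := (Finset.mem_filter.mp hj).2
      have h2 : 2 ∣ p j ^ e j := by rw [h1, hi.1]; exact dvd_pow_self 2 hi.2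
      refine ⟨((Nat.prime_dvd_prime_iff_eq Nat.prime_two (hp j)).mp
        (Nat.prime_two.dvd_of_dvd_pow h2)).symm, fun h0 => ?_⟩
      rw [h0, pow_zero] at h2
      omega
    let D : ι → ℤ := fun j => if rt (s j) j then 0 else 1
    let a : (Π j, ZMod (p j ^ e j)) →+ (Π j, ZMod (p j ^ e j)) := AddMonoidHom.mk'
      (fun x j => if good j then C j (x (f (s j) j)) + D j • x j else -x j) (by
        intro x y
        funext j
        by_cases hj : good j
        · simp only [if_pos hj, Pi.add_apply, map_add, smul_add]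
          abel
        · simp only [if_neg hj, Pi.add_apply]
          abel)
    have ha1 : ∀ x j, good j → a x j = C j (x (f (s j) j)) + D j • x j := fun x j hj => if_pos hj
    have ha2 : ∀ x j, ¬ good j → a x j = -x j := fun x j hj => if_neg hj
    have hinj : Function.Injective a := by
      rw [injective_iff_map_eq_zero]
      intro x hx
      funext i
      by_cases hi : good i
      · obtain ⟨i0, h0, hr⟩ := (hrt (s i) i (hs i)).1
        refine key x D i i0 h0 (if_pos (by rw [hss i i0 h0]; exact hr)) (fun j hj => ?_)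
        rw [← ha1 x j (hgood i j hi hj), hx]
        rfl
      · have := congrFun hx i
        rw [ha2 x i hi] at this
        exact neg_eq_zero.mp this
    refine ⟨AddEquiv.ofBijective a (Finite.injective_iff_bijective.mp hinj), fun x hx => ?_⟩
    have hx' : a x = x := hx
    funext i
    by_cases hi : good i
    · obtain ⟨j, hji, hj2, hje⟩ := h i hi.1 hi.2
      have hjs : j ∈ s i := by simp [s, hj2, hje, hi.1]
      have h1 : ∃ i1 ∈ s i, ¬ rt (s i) i1 := by
        by_contra hcon
        push Not at hcon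
        exact hji ((hrt (s i) i (hs i)).2 j i (hcon j hjs) (hcon i (hs i)))
      obtain ⟨i1, h0, hr⟩ := h1
      refine key x (fun j => D j - 1) i i1 h0 ?_ (fun j hj => ?_)
      · simp only [D, hss i i1 h0, if_neg hr, sub_self]
      · rw [sub_smul, one_smul, ← add_sub_assoc, ← ha1 x j (hgood i j hi hj), hx', sub_self]
    · have h1 := congrFun hx' i
      rw [ha2 x i hi] at h1
      have hodd : Odd (p i ^ e i) := by
        by_cases h2 : p i = 2
        · have h3 : e i = 0 := by
            by_contra h4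
            exact hi ⟨h2, h4⟩
          rw [h3, pow_zero]
          exact odd_one
        · exact ((hp i).odd_of_ne_two h2).pow
      obtain ⟨c, hc⟩ := hodd
      have h3 := kill _ (x i)
      change x i = 0
      generalize x i = y at h1 h3 ⊢
      have h4 : (2 * c + 1) • y = 0 := by rw [← hc]; exact h3
      have h5 : 2 • y = 0 := by rw [two_smul]; exact neg_eq_iff_add_eq_zero.mp h1
      rwa [add_smul, one_smul, mul_comm, mul_smul, h5, smul_zero, zero_add] at h4

theorem result (G : Type) [CommGroup G] (ι : Type) [Fintype ι] (p e : ι → ℕ)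
    (hp : ∀ i, (p i).Prime) (f : Additive G ≃+ Π i, ZMod (p i ^ e i)) :
    (∀ H : Subgroup G, ∃ α : MulAut G, ∀ g : G, α g = g ↔ g ∈ H) ↔
      ∀ i, p i = 2 → e i ≠ 0 → ∃ j, j ≠ i ∧ p j = 2 ∧ e j = e i := by
  have : ∀ j, NeZero (p j ^ e j) := fun j => ⟨pow_ne_zero _ (hp j).ne_zero⟩
  have : Finite (Additive G) := Finite.of_equiv _ f.symm.toEquiv
  have : Finite G := Finite.of_equiv (Additive G) Additive.toMul
  rw [red G, ← fpf_iff p e hp]
  constructor
  · rintro ⟨α, hα⟩
    refine ⟨f.symm.trans ((MulEquiv.toAdditive α).trans f), fun x hx => ?_⟩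
    have h1 : α (Additive.toMul (f.symm x)) = Additive.toMul (f.symm x) :=
      congrArg Additive.toMul (f.eq_symm_apply.mpr hx)
    exact (map_eq_zero_iff _ f.symm.injective).mp (hα _ h1)
  · rintro ⟨a, ha⟩
    refine ⟨MulEquiv.toAdditive.symm (f.trans (a.trans f.symm)), fun g hg => ?_⟩
    have h1 : f.symm (a (f (Additive.ofMul g))) = Additive.ofMul g := hg
    exact (map_eq_zero_iff _ f.injective).mp (ha _ (f.symm_apply_eq.mp h1))

end Pool.Agent.Results.MP_9085a3_al.Classify
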